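import Pool.Agent.T2h46.Radon.Defs
import Pool.Agent.T2h46.Radon.Relations
import Pool.Agent.T2h46.Radon.Pairs
import Pool.Agent.T2h46.Radon.Linear

/-!
# The affine hull of the pairs (Radon vector, primitive Radon vector)

For all `d ≥ 1` and `s ≥ d + 2` the affine hull of `V(s, d)` is the solution set of the explicit
system `System s d` of linear equations.
-/

set_option autoImplicit false

open Module Finset

namespace Pool.Agent.Results.MP_620441_co.AffineHull

open Pool.Agent.T2h46.Radon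

theorem coord_lin {m : ℕ} (c : ℝ) (u w z : Fin m → ℝ) (j : ℕ) :
    coord (c • (u - w) + z) j = c * (coord u j - coord w j) + coord z j := by
  unfold coord
  split_ifs
  · simp
  · ring

theorem ordered_lin (n : ℕ) (c : ℝ) (u w z : Fin (n / 2) → ℝ) (i : ℕ) :
    ordered n (c • (u - w) + z) i = c * (ordered n u i - ordered n w i) + ordered n z i := by
  unfold ordered
  split_ifs
  · rw [coord_lin]; ring
  · rw [coord_lin]

theorem sum_lin {m : ℕ} (F : Fin m → ℝ) (c : ℝ) (u w z : Fin m → ℝ) :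
    ∑ k, F k * (c • (u - w) + z) k =
      c * (∑ k, F k * u k - ∑ k, F k * w k) + ∑ k, F k * z k := by
  rw [← sum_sub_distrib, mul_sum, ← sum_add_distrib]
  apply sum_congr rfl
  intro k _
  simp only [Pi.add_apply, Pi.smul_apply, Pi.sub_apply, smul_eq_mul]
  ring

theorem system_lin {s d : ℕ} (c : ℝ) {r1 r2 r3 : Fin (s / 2) → ℝ} {P1 P2 P3 : Fin ((d + 2) / 2) → ℝ}
    (h1 : System s d r1 P1) (h2 : System s d r2 P2) (h3 : System s d r3 P3) :
    System s d (c • (r1 - r2) + r3) (c • (P1 - P2) + P3) := by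
  obtain ⟨a1, a2, a3, a4, a5, a6, a7⟩ := h1
  obtain ⟨b1, b2, b3, b4, b5, b6, b7⟩ := h2
  obtain ⟨c1, c2, c3, c4, c5, c6, c7⟩ := h3
  refine ⟨?_, ?_, ?_, ?_, ?_, ?_, ?_⟩
  · have h := sum_lin (fun _ => 1) c P1 P2 P3
    simp only [one_mul] at h
    rw [h, a1, b1, c1]; ring
  · have h := sum_lin (fun _ => 1) c r1 r2 r3
    simp only [one_mul] at h
    rw [h, a2, b2, c2]; ring
  · rw [sum_lin, sum_lin, a3, b3, c3]
  · intro hd hs
    rw [sum_lin, a4 hd hs, b4 hd hs, c4 hd hs]; ring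
  · intro hs i hi
    rw [ordered_lin, ordered_lin, a5 hs i hi, b5 hs i hi, c5 hs i hi]
  · intro hs i hi
    rw [ordered_lin, ordered_lin, ordered_lin]
    linear_combination c * (a6 hs i hi - b6 hs i hi) + c6 hs i hi
  · intro hd i hi
    rw [ordered_lin, a7 hd i hi, b7 hd i hi, c7 hd i hi]; ring

/-- the solution set as an affine subspace -/
def sol (s d : ℕ) : AffineSubspace ℝ ((Fin (s / 2) → ℝ) × (Fin ((d + 2) / 2) → ℝ)) where
  carrier := {x | System s d x.1 x.2}
  smul_vsub_vadd_mem' := by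
    intro c p1 p2 p3 h1 h2 h3
    exact system_lin c h1 h2 h3

theorem ordered_zero (n : ℕ) (v : Fin (n / 2) → ℝ) : ordered n v 0 = 0 := by
  unfold ordered coord
  simp

theorem ordered_last (n : ℕ) (v : Fin (n / 2) → ℝ) : ordered n v n = 0 := by
  unfold ordered coord
  split_ifs with h1 h2 h3
  · omega
  · ring
  · exfalso
    rw [Nat.sub_self, Nat.min_zero] at h3
    omega
  · rfl

theorem coord_symm (n : ℕ) (v : Fin (n / 2) → ℝ) {i : ℕ} (hi : i ≤ n) :
    coord v (min i (n - i)) = coord v (min (n - i) (n - (n - i))) := by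
  rw [Nat.sub_sub_self hi, min_comm]

theorem coord_min (n : ℕ) (v : Fin (n / 2) → ℝ) (k : Fin (n / 2)) :
    coord v (min ((k : ℕ) + 1) (n - ((k : ℕ) + 1))) = v k ∧
      coord v (min (n - ((k : ℕ) + 1)) (n - (n - ((k : ℕ) + 1)))) = v k := by
  have hk := k.2
  have e1 : min ((k : ℕ) + 1) (n - ((k : ℕ) + 1)) = (k : ℕ) + 1 := by omega
  have e2 : min (n - ((k : ℕ) + 1)) (n - (n - ((k : ℕ) + 1))) = (k : ℕ) + 1 := by omega
  have e3 : coord v ((k : ℕ) + 1) = v k := by
    unfold coord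
    rw [dif_pos ⟨by omega, by omega⟩]
    rfl
  rw [e1, e2]
  exact ⟨e3, e3⟩

/-- pairing with symmetric coefficients -/
theorem pairing (n : ℕ) (a v : Fin (n / 2) → ℝ) :
    ∑ i ∈ range (n + 1), coord a (min i (n - i)) * ordered n v i = 2 * ∑ k, a k * v k := by
  rw [sum_ordered n v (fun i => coord a (min i (n - i))), mul_sum]
  apply sum_congr rfl
  intro k _
  obtain ⟨h1, h2⟩ := coord_min n a k
  rw [h1, h2]
  ring

theorem dual_eq {m n : ℕ} (l : ((Fin m → ℝ) × (Fin n → ℝ)) →ₗ[ℝ] ℝ)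
    (y : (Fin m → ℝ) × (Fin n → ℝ)) :
    l y = ∑ k, l (Pi.single k 1, 0) * y.1 k + ∑ k, l (0, Pi.single k 1) * y.2 k := by
  have e1 : y = (∑ k, y.1 k • ((Pi.single k 1, 0) : (Fin m → ℝ) × (Fin n → ℝ))) +
      ∑ k, y.2 k • ((0, Pi.single k 1) : (Fin m → ℝ) × (Fin n → ℝ)) := by
    apply Prod.ext
    · rw [Prod.fst_add, Prod.fst_sum, Prod.fst_sum]
      funext j
      simp [Finset.sum_apply, Pi.single_apply]
    · rw [Prod.snd_add, Prod.snd_sum, Prod.snd_sum]
      funext j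
      simp [Finset.sum_apply, Pi.single_apply]
  conv_lhs => rw [e1]
  rw [map_add, map_sum, map_sum]
  congr 1
  · apply sum_congr rfl
    intro k _
    rw [map_smul, smul_eq_mul, mul_comm]
  · apply sum_congr rfl
    intro k _
    rw [map_smul, smul_eq_mul, mul_comm]

theorem le_sol {s d : ℕ} (hs : d + 2 ≤ s) : affineSpan ℝ (V s d) ≤ sol s d := by
  rw [affineSpan_le]
  rintro x ⟨S, hS, hG, rfl⟩
  exact system_of_generalPosition hs hS hG

theorem sol_le {s d : ℕ} (hd : 1 ≤ d) (hs : d + 2 ≤ s) : sol s d ≤ affineSpan ℝ (V s d) := by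
  intro x hx
  -- a point of V
  obtain ⟨v0, hv0, -⟩ := exists_pair (s := s) (t := 1) (a := s - d - 1) (b := 0) hd le_rfl hd
    (by omega) (by omega)
  have hv0' : v0 ∈ affineSpan ℝ (V s d) := mem_affineSpan ℝ hv0
  by_contra hcon
  rw [← AffineSubspace.vsub_right_mem_direction_iff_mem hv0'] at hcon
  obtain ⟨l, hl0, hl⟩ := Submodule.exists_le_ker_of_notMem hcon
  apply hl0
  -- the coefficients
  set a : Fin (s / 2) → ℝ := fun k => l (Pi.single k 1, 0) with ha
  set b : Fin ((d + 2) / 2) → ℝ := fun k => l (0, Pi.single k 1) with hb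
  set α : ℕ → ℝ := fun i => coord a (min i (s - i)) with hα
  set β : ℕ → ℝ := fun j => coord b (min j (d + 2 - j)) with hβ
  have hval : ∀ y : (Fin (s / 2) → ℝ) × (Fin ((d + 2) / 2) → ℝ),
      ∑ i ∈ range (s + 1), α i * ordered s y.1 i +
        ∑ j ∈ range (d + 2 + 1), β j * ordered (d + 2) y.2 j = 2 * l y := by
    intro y
    rw [hα, hβ, pairing s a y.1, pairing (d + 2) b y.2, dual_eq l y]
    ring
  have hαs : ∀ i ≤ s, α i = α (s - i) := fun i hi => coord_symm s a hi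
  have hβs : ∀ j ≤ d + 2, β j = β (d + 2 - j) := fun j hj => coord_symm (d + 2) b hj
  have hM : ∀ t a b, 1 ≤ t → t ≤ d → d + 1 + a + b = s → 0 < a + b →
      α (t + a) - α (t + b) = ((b : ℝ) - a) * (β (t + 1) - β t) := by
    intro t a b ht htd hab hpos
    obtain ⟨y, hy, z, hz, hyz⟩ := exists_pair hd ht htd hab hpos
    have h1 := hyz α β (by
      rw [hval, hval]
      have h2 : y -ᵥ z ∈ (affineSpan ℝ (V s d)).direction :=
        AffineSubspace.vsub_mem_direction (mem_affineSpan ℝ hy) (mem_affineSpan ℝ hz)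
      have h3 := LinearMap.mem_ker.1 (hl h2)
      rw [vsub_eq_sub, map_sub] at h3
      linarith)
    have e1 : α (d + 1 - t + b) = α (t + a) := by
      rw [hαs (t + a) (by omega)]
      congr 1
      omega
    have e2 : α (d + 1 - t + a) = α (t + b) := by
      rw [hαs (t + b) (by omega)]
      congr 1
      omega
    have e3 : β (d + 1 - t) = β (t + 1) := by
      rw [hβs (t + 1) (by omega)]
      congr 1
      omega
    have e4 : β (d + 1 - t + 1) = β t := by
      rw [hβs t (by omega)]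
      congr 1
      omega
    rw [e1, e2, e3, e4] at h1
    linear_combination h1 / 2
  -- both points are solutions
  have hx' : System s d x.1 x.2 := hx
  have hv' : System s d v0.1 v0.2 := le_sol hs hv0'
  obtain ⟨a1, a2, a3, a4, a5, a6, a7⟩ := hx'
  obtain ⟨b1, b2, b3, b4, b5, b6, b7⟩ := hv'
  set y := x -ᵥ v0 with hy
  have hy1 : y.1 = x.1 - v0.1 := rfl
  have hy2 : y.2 = x.2 - v0.2 := rfl
  have ho : ∀ (n : ℕ) (u w : Fin (n / 2) → ℝ) (i : ℕ),
      ordered n (u - w) i = ordered n u i - ordered n w i := by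
    intro n u w i
    have h1 := ordered_lin n 1 u w 0 i
    rw [one_smul, add_zero, one_mul] at h1
    rw [h1]
    have h2 : ordered n (0 : Fin (n / 2) → ℝ) i = 0 := by
      unfold ordered coord
      simp
    rw [h2, add_zero]
  have key := functional_zero (α := α) (β := β) (R := fun i => ordered s y.1 i)
    (p := fun j => ordered (d + 2) y.2 j) hd hs hαs hβs hM
    (ordered_zero s _) (ordered_last s _) (ordered_zero (d + 2) _) (ordered_last (d + 2) _)
    ?_ ?_ ?_ ?_ ?_ ?_ ?_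
  · have h1 := hval y
    rw [key] at h1
    linarith
  · -- relation 1
    have h1 := sum_ordered (d + 2) y.2 (fun _ => 1)
    simp only [one_mul] at h1
    rw [h1, ← mul_sum, hy2]
    simp only [Pi.sub_apply, sum_sub_distrib, a1, b1]
    ring
  · have h1 := sum_ordered s y.1 (fun _ => 1)
    simp only [one_mul] at h1
    rw [h1, ← mul_sum, hy1]
    simp only [Pi.sub_apply, sum_sub_distrib, a2, b2]
    ring
  · have h1 := sum_ordered s y.1 (fun i => ((s : ℝ) - 2 * i) ^ 2)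
    have h2 := sum_ordered (d + 2) y.2 (fun j => ((d : ℝ) + 2 - 2 * j) ^ 2)
    rw [h1, h2]
    have e1 : ∀ k : Fin (s / 2), (((s : ℝ) - 2 * (((k : ℕ) + 1 : ℕ) : ℝ)) ^ 2 +
        ((s : ℝ) - 2 * ((s - ((k : ℕ) + 1) : ℕ) : ℝ)) ^ 2) * y.1 k =
        2 * (((((s : ℝ) - 2 * ((k : ℝ) + 1)) ^ 2 - s) * x.1 k -
          (((s : ℝ) - 2 * ((k : ℝ) + 1)) ^ 2 - s) * v0.1 k) + s * (x.1 k - v0.1 k)) := by
      intro k
      have hk := k.2
      rw [Nat.cast_sub (by omega : (k : ℕ) + 1 ≤ s), hy1, Pi.sub_apply]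
      push_cast
      ring
    have e2 : ∀ k : Fin ((d + 2) / 2), (((d : ℝ) + 2 - 2 * (((k : ℕ) + 1 : ℕ) : ℝ)) ^ 2 +
        ((d : ℝ) + 2 - 2 * ((d + 2 - ((k : ℕ) + 1) : ℕ) : ℝ)) ^ 2) * y.2 k =
        2 * (((((d : ℝ) + 2 - 2 * ((k : ℝ) + 1)) ^ 2 - (d + 2)) * x.2 k -
          (((d : ℝ) + 2 - 2 * ((k : ℝ) + 1)) ^ 2 - (d + 2)) * v0.2 k) +
            (d + 2) * (x.2 k - v0.2 k)) := by
      intro k
      have hk := k.2
      rw [Nat.cast_sub (by omega : (k : ℕ) + 1 ≤ d + 2), hy2, Pi.sub_apply]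
      push_cast
      ring
    rw [sum_congr rfl (fun k _ => e1 k), sum_congr rfl (fun k _ => e2 k), ← mul_sum, ← mul_sum,
      sum_add_distrib, sum_add_distrib, sum_sub_distrib, sum_sub_distrib, ← mul_sum, ← mul_sum,
      sum_sub_distrib, sum_sub_distrib, a1, a2, a3, b1, b2, b3]
    ring
  · intro hdo hse
    have h1 := sum_ordered s y.1 (fun i => (-1 : ℝ) ^ i)
    rw [h1]
    have e1 : ∀ k : Fin (s / 2), ((-1 : ℝ) ^ ((k : ℕ) + 1) + (-1) ^ (s - ((k : ℕ) + 1))) * y.1 k =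
        2 * ((-1 : ℝ) ^ ((k : ℕ) + 1) * x.1 k - (-1 : ℝ) ^ ((k : ℕ) + 1) * v0.1 k) := by
      intro k
      have hk := k.2
      have e2 : (-1 : ℝ) ^ (s - ((k : ℕ) + 1)) = (-1) ^ ((k : ℕ) + 1) := by
        have h3 : (-1 : ℝ) ^ (s - ((k : ℕ) + 1)) * (-1) ^ ((k : ℕ) + 1) = 1 := by
          rw [← pow_add, Nat.sub_add_cancel (by omega), hse.neg_one_pow]
        rcases neg_one_pow_eq_or ℝ ((k : ℕ) + 1) with h4 | h4 <;> rw [h4] at h3 ⊢ <;> linarith
      rw [e2, hy1, Pi.sub_apply]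
      ring
    rw [sum_congr rfl (fun k _ => e1 k), ← mul_sum, sum_sub_distrib, a4 hdo hse, b4 hdo hse]
    ring
  · intro hs i hi
    rw [hy1, hy2, ho, ho, a5 hs i hi, b5 hs i hi]
  · intro hs i hi
    rw [hy1, hy2, ho, ho, ho]
    linear_combination a6 hs i hi - b6 hs i hi
  · intro hd i hi
    rw [hy1, ho, a7 hd i hi, b7 hd i hi, sub_self]

/-- For all `d ≥ 1` and `s ≥ d + 2`, the affine hull of the set `V(s, d)` of all pairs
`(r(S), P(S))` is the solution set of the system of linear equations `System s d`. -/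
theorem result : ∀ d s : ℕ, 1 ≤ d → d + 2 ≤ s →
    (affineSpan ℝ (V s d) : Set ((Fin (s / 2) → ℝ) × (Fin ((d + 2) / 2) → ℝ))) =
      {x | System s d x.1 x.2} := by
  intro d s hd hs
  have h1 : affineSpan ℝ (V s d) = sol s d := le_antisymm (le_sol hs) (sol_le hd hs)
  rw [h1]
  rfl

end Pool.Agent.Results.MP_620441_co.AffineHull
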